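import Pool.Agent.U918.LP.Seqs

/-!
# `n = k + m` with `6 k ± 1` prime and `p_m + 2 h` prime for almost all `h`, for every `n`, with arbitrary weights

The question asks, for every `n > 2`, for `n = k + m` with `6 k - 1`, `6 k + 1` both prime and `p_m + 2` prime (`p_j` is the
`j`-th prime). Here the condition on `k = n - m` is kept, for EVERY `n`: let `w` be any bounded real weight on the `m`. For
all but a share `log ^ (-U) X` of the vectors `(h₁, …, h_r)` of integers `1 ≤ h_i ≤ B X`, the sum of `w m` over the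
`m < n` with `6 (n - m) ± 1` prime and `p_m ≤ y` for which all the numbers `p_m + 2 h_i` are prime is the sum of
`w m ∏ 1 / (V z log (p_m + 2 h_i))` over those `m` for which all the numbers `p_m + 2 h_i` are free of primes `≤ z`, up
to an error `X / log ^ D X`; here `z` is a power of `log X`, `V z = ∏_{l ≤ z} (1 - 1/l)`, and this holds simultaneously
for all `y ≤ X` (for example `y = X = p_n`, which gives all `m < n`), and all residue classes of `p_m` to all moduli up
to `log ^ K X`. The condition of the question is `h = 1`.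
-/

set_option autoImplicit false

open Finset

namespace Pool.Agent.Results.MP_ea8352_nt.ArbitraryWeights

/-- the product of `1 - 1/l` over the primes `l ≤ z` -/
noncomputable def V (z : ℕ) : ℝ := ∏ l ∈ (Icc 1 z).filter Nat.Prime, (1 - 1 / (l : ℝ))

/-- the `m`-th prime -/
noncomputable def p (m : ℕ) : ℕ := Nat.nth Nat.Prime (m - 1)

/-- `m < n` and with `k = n - m` the numbers `6 k - 1` and `6 k + 1` are prime -/
def Twin (n m : ℕ) : Prop := m < n ∧ (6 * (n - m) - 1).Prime ∧ (6 * (n - m) + 1).Prime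

open Classical in
/-- the sum of `w m` over the `m ≥ 1` with `Twin n m`, `p m ≤ y`, `p m ≡ a mod c`, for which all the numbers
`p m + 2 h i` are prime (here `m ≤ p m`) -/
noncomputable def primeSum {r : ℕ} (n : ℕ) (w : ℕ → ℝ) (h : Fin r → ℕ) (c a y : ℕ) : ℝ :=
  ∑ m ∈ (Icc 1 y).filter (fun m => Twin n m ∧ p m ≤ y ∧ p m ≡ a [MOD c] ∧ ∀ i, (p m + 2 * h i).Prime), w m

open Classical in
/-- the sum of `w m / ∏ (V z · log (p m + 2 h i))` over the `m ≥ 1` with `Twin n m`, `p m ≤ y`, `p m ≡ a mod c`, for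
which no prime `l ≤ z` divides any of the numbers `p m + 2 h i` -/
noncomputable def modelSum {r : ℕ} (z n : ℕ) (w : ℕ → ℝ) (h : Fin r → ℕ) (c a y : ℕ) : ℝ :=
  ∑ m ∈ (Icc 1 y).filter (fun m => Twin n m ∧ p m ≤ y ∧ p m ≡ a [MOD c] ∧
    ∀ i, ∀ l : ℕ, l.Prime → l ≤ z → ¬ l ∣ p m + 2 * h i),
    w m * ∏ i, (V z * Real.log ((p m + 2 * h i : ℕ) : ℝ))⁻¹

theorem p_lt (a b : ℕ) (ha : 1 ≤ a) (hab : a < b) : p a < p b := Pool.Agent.U918.LP.pr_lt a b ha hab

theorem p_ge (m : ℕ) (hm : 1 ≤ m) : m ≤ p m := (Pool.Agent.U918.LP.pr_ge m hm).le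

open Classical in
/-- **The theorem.** For all `r`, `B`, `U`, `D`, `K` there is `B₀` such that for every `E`, every large `X`, every
integer `z` with `log ^ B₀ X ≤ z ≤ log ^ E X`, EVERY `n` and EVERY weight `w` with `|w m| ≤ 1`: for all but at most
`X ^ r / log ^ U X` of the vectors `h` of integers `1 ≤ h i ≤ B X`, one has for all `y ≤ X`, all moduli
`1 ≤ c ≤ log ^ K X` and all classes `a` that `primeSum n w h c a y` and `modelSum z n w h c a y` differ by at most
`X / log ^ D X`. -/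
theorem result (r B U D K : ℕ) :
    ∃ B₀ : ℕ, ∀ E : ℕ, ∃ X₀ : ℕ, ∀ X : ℕ, X₀ ≤ X → ∀ z : ℕ, Real.log X ^ B₀ ≤ z → (z : ℝ) ≤ Real.log X ^ E →
    ∀ n : ℕ, ∀ w : ℕ → ℝ, (∀ m, |w m| ≤ 1) →
    (((Fintype.piFinset (fun _ : Fin r => Icc 1 (B * X))).filter (fun h =>
      ∃ y ≤ X, ∃ c a : ℕ, 1 ≤ c ∧ (c : ℝ) ≤ Real.log X ^ K ∧
        (X : ℝ) / Real.log X ^ D < |primeSum n w h c a y - modelSum z n w h c a y|)).card : ℝ) ≤
      (X : ℝ) ^ r / Real.log X ^ U := by
  obtain ⟨B₀, h0⟩ := Pool.Agent.U918.LP.any_seq r B U D K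
  refine ⟨B₀, fun E => ?_⟩
  obtain ⟨x0, hx0⟩ := h0 E
  refine ⟨x0, fun X hX z hz1 hz2 n w hw => ?_⟩
  have hw' : ∀ m, |(if Twin n m then w m else 0)| ≤ 1 := by
    intro m
    split_ifs
    · exact hw m
    · rw [abs_zero]
      exact zero_le_one
  refine le_trans (le_of_eq ?_) (hx0 X hX z hz1 hz2 p p_lt p_ge (fun m => if Twin n m then w m else 0) hw')
  have e1 : ∀ (h : Fin r → ℕ) (c a y : ℕ), primeSum n w h c a y =
      Pool.Agent.U918.LP.PQ p (fun m => if Twin n m then w m else 0) h c a y := by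
    intro h c a y
    unfold primeSum Pool.Agent.U918.LP.PQ
    rw [sum_filter, sum_filter]
    apply sum_congr rfl
    intro m _
    by_cases h1 : Twin n m <;> simp [h1]
  have e2 : ∀ (h : Fin r → ℕ) (c a y : ℕ), modelSum z n w h c a y =
      Pool.Agent.U918.LP.MQ p z (fun m => if Twin n m then w m else 0) h c a y := by
    intro h c a y
    unfold modelSum Pool.Agent.U918.LP.MQ
    have hV : Pool.Agent.H373R2.T7.Vz z = V z := rfl
    rw [hV, sum_filter, sum_filter]
    apply sum_congr rfl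
    intro m _
    by_cases h1 : Twin n m <;> simp [h1]
  simp only [e1, e2]

end Pool.Agent.Results.MP_ea8352_nt.ArbitraryWeights
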