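import Pool.Agent.U847.XI
import Pool.Agent.N625.PT.X14
import Pool.Agent.Y877.SxI

/-!
# EVERY large `n`: the number of the `k < n` with `6 k - 1`, `6 k - 1 + N` and `p_{n - k} + N'` prime, for multiples `N`, `N'`
of random integers whose digits form a random field on an arbitrary graph of positions

The even numbers `N_j = h_j M (c_j + κ_j v_j)`, where `M` is the product of the primes `≤ y` and the digits of the independent
random integers `v_j` form Markov random fields on graphs of positions of bounded degree: the sum in the theorem is the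
probability that `(v_0, v_1)` does not have the property.

From Mathlib: `Nat.nth Nat.Prime`: the sequence of the primes; `primorial y`: the product of the primes `≤ y`;
`Finset.Ioo 0 n`: the integers `0 < k < n`; `Fintype.piFinset S`: the vectors `v` with `v j ∈ S j`.

Method: exponential sums over the integers whose digits form a Markov random field: averages over separated neighbourhoods
in the graph of positions (starting files, `Pool.Agent.N213.GF`). New here: the decay is exponential in the number of the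
digits where the frequency is not extremal, for all the fractions with a denominator free of small primes
(`Pool.Agent.U847.XC`), it gives the sieve with error terms smaller than all powers of `d` (`Pool.Agent.U847.XD`), the second
moment and the number of the primes in random translates of dense sequences (`Pool.Agent.U847.XG`) and the case of several
translates (`Pool.Agent.U847.XH`, `Pool.Agent.U847.XI`). The proofs of these steps are those of the starting files
`Pool.Agent.N625.PT.X2` - `X12` (integers with exchangeable blocks of digits), with the class of distributions replaced.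

Examples of random fields, proved in `Pool.Agent.N213.GF.E` and `Pool.Agent.N213.GF.F`: the uniform distribution on the
solutions of local constraints with flexible digits on a graph of positions with degrees at most `Δ`, with `η = 1 / b ^ (Δ + 1)`
(`unif_field`); in particular the integers whose nonzero digits form an independent set of the graph (`indep_local`), and,
for `b ≥ Δ + 2`, the integers whose digits are a proper colouring of the graph (`colour_local`).
-/

set_option autoImplicit false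

namespace Pool.Agent.Results.MP_ea8352_nt.RandomFieldPairs

open Finset

/-- The digit of `v` at the position `i` in base `b` (the position `0` is the least significant one). -/
def dig (b v i : ℕ) : ℕ := v / b ^ i % b

/-- The integer which has the digits of `v` at the positions in `S` and the digits of `w` at the other positions below `k`. -/
def splice (b k : ℕ) (S : Finset ℕ) (v w : ℕ) : ℕ := ∑ i ∈ range k, (if i ∈ S then dig b v i else dig b w i) * b ^ i

/-- `v` and `w` have the same digits outside the set `S` of positions. -/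
def Off (b : ℕ) (S : Finset ℕ) (v w : ℕ) : Prop := ∀ i, i ∉ S → dig b v i = dig b w i

open Classical in
/-- The closed neighbourhood of the position `i` in the graph `A` on the positions `0, …, k - 1`. -/
noncomputable def nb (k : ℕ) (A : ℕ → ℕ → Prop) (i : ℕ) : Finset ℕ := (range k).filter fun j => j = i ∨ A i j

open Classical in
/-- The total weight of the integers below `b ^ k` which have the same digits as `v` outside `S`. -/
noncomputable def mass (b k : ℕ) (p : ℕ → ℝ) (S : Finset ℕ) (v : ℕ) : ℝ :=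
  ∑ w ∈ (range (b ^ k)).filter (fun w => Off b S w v), p w

/-- The digits of a random integer `v < b ^ k` (with the probabilities `p v`) form a Markov random field on a graph `A` of
positions with degrees at most `Δ` (the Markov property: for every set `S` of positions and all `v`, `w` which have the same
digits at the positions outside `S` adjacent to `S`, the product `p v * p w` does not change if `v` and `w` exchange their
digits in `S`), and each digit is flexible: for every `v` with `p v ≠ 0` and every position `i`, there are `x` and `y` which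
have the same digits as `v` outside the closed neighbourhood of `i`, which differ from each other exactly at the position
`i`, and whose conditional probabilities, given the digits outside this neighbourhood, are at least `η`. -/
structure Field (b k Δ : ℕ) (η : ℝ) (A : ℕ → ℕ → Prop) (p : ℕ → ℝ) : Prop where
  symm : ∀ i j, A i j → A j i
  degree : ∀ i < k, (nb k A i).card ≤ Δ + 1
  nonneg : ∀ v, 0 ≤ p v
  sum : ∑ v ∈ range (b ^ k), p v = 1
  markov : ∀ S : Finset ℕ, ∀ v < b ^ k, ∀ w < b ^ k, (∀ i ∈ S, ∀ j < k, j ∉ S → A i j → dig b v j = dig b w j) →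
    p v * p w = p (splice b k S v w) * p (splice b k S w v)
  flexible : ∀ v < b ^ k, p v ≠ 0 → ∀ i < k, ∃ x < b ^ k, ∃ y < b ^ k, Off b (nb k A i) x v ∧ Off b {i} y x ∧
    dig b y i ≠ dig b x i ∧ η * mass b k p (nb k A i) v ≤ p x ∧ η * mass b k p (nb k A i) v ≤ p y

/-- the `n`-th prime, `n ≥ 1` -/
noncomputable def p (n : ℕ) : ℕ := Nat.nth Nat.Prime (n - 1)

/-- the product of `1 - 1/q` over the primes `q ≤ y` -/
noncomputable def V (y : ℕ) : ℝ := ∏ q ∈ (Icc 1 y).filter Nat.Prime, (1 - 1 / (q : ℝ))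

/-- the multiple of the product of the primes `≤ y` given by the integers `h` and `c + κ v` -/
def Nv (y h : ℕ) (c κ : ℤ) (v : ℕ) : ℤ := ((primorial y * h : ℕ) : ℤ) * (c + κ * v)

/-- the `0 < k < n` such that `6 k - 1` is prime -/
def Base (n : ℕ) : Finset ℕ := (Ioo 0 n).filter (fun k : ℕ => (6 * k - 1).Prime)

/-- the `0 < k < n` such that `6 k - 1`, `6 k - 1 + N` and `p_{n - k} + N'` are prime -/
noncomputable def Good (n : ℕ) (N N' : ℤ) : Finset ℕ :=
  (Base n).filter (fun k : ℕ => (N + (6 * k - 1 : ℕ)).toNat.Prime ∧ (N' + (p (n - k) : ℕ)).toNat.Prime)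

lemma field_conv {b k Δ : ℕ} {η : ℝ} {A : ℕ → ℕ → Prop} {p : ℕ → ℝ} (h : Field b k Δ η A p) :
    Pool.Agent.N213.GF.Field b k Δ η A p :=
  ⟨h.symm, h.degree, h.nonneg, h.sum, h.markov, h.flexible⟩

lemma six_inj (n : ℕ) : Set.InjOn (fun k : ℕ => 6 * k - 1) (Ioo 0 n : Finset ℕ) := by
  intro a ha b hb hab
  rw [mem_coe, mem_Ioo] at ha hb
  simp only at hab
  omega

lemma p_inj (n : ℕ) : Set.InjOn (fun k => p (n - k)) (Ioo 0 n : Finset ℕ) := by
  intro a ha b hb hab
  rw [mem_coe, mem_Ioo] at ha hb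
  have h1 := Nat.nth_injective Nat.infinite_setOfPred_prime hab
  omega

lemma base_low : ∃ n₀ : ℕ, ∀ n : ℕ, n₀ ≤ n → (n : ℝ) ≤ ((Base n).card : ℝ) * (24 * Real.log (6 * n)) := by
  obtain ⟨X₀, h0⟩ := Pool.Agent.N625.PT.ap_low 1
  refine ⟨max X₀ 500, fun n hn => ?_⟩
  obtain ⟨X, hX⟩ : ∃ X, X = 6 * n - 7 := ⟨_, rfl⟩
  have hXn : n ≤ X := by omega
  have hX1 : X ≤ 6 * n := by omega
  have hXr : (500 : ℝ) ≤ X := by exact_mod_cast (by omega : 500 ≤ X)
  have hl6 : (6 : ℝ) ≤ Real.log X := by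
    rw [Real.le_log_iff_exp_le (by linarith)]
    have h1 : Real.exp 6 = (Real.exp 1) ^ 6 := by rw [← Real.exp_nat_mul]; norm_num
    have h2 : Real.exp 1 < 2.7182818286 := Real.exp_one_lt_d9
    have h3 : (Real.exp 1) ^ 6 ≤ 2.7182818286 ^ 6 := pow_le_pow_left₀ (Real.exp_pos 1).le h2.le 6
    rw [h1]
    norm_num at h3 ⊢
    linarith
  have h1 := h0 X (by omega) 6 (by norm_num) (by rw [pow_one]; exact_mod_cast hl6) 5 (by norm_num)
  have h2 : ((Icc 1 X).filter (fun q : ℕ => q.Prime ∧ q ≡ 5 [MOD 6])).card ≤ (Base n).card := by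
    have e1 : ((Icc 1 X).filter (fun q : ℕ => q.Prime ∧ q ≡ 5 [MOD 6])).card =
        (((Icc 1 X).filter (fun q : ℕ => q.Prime ∧ q ≡ 5 [MOD 6])).image (fun q => (q + 1) / 6)).card := by
      rw [card_image_of_injOn]
      intro q hq r hr hqr
      rw [mem_coe, mem_filter] at hq hr
      have f1 := hq.2.2
      have f2 := hr.2.2
      unfold Nat.ModEq at f1 f2
      simp only at hqr
      omega
    rw [e1]
    apply card_le_card
    intro k hk
    rw [mem_image] at hk
    obtain ⟨q, hq, rfl⟩ := hk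
    rw [mem_filter, mem_Icc] at hq
    have f1 := hq.2.2
    unfold Nat.ModEq at f1
    unfold Base
    rw [mem_filter, mem_Ioo]
    refine ⟨by omega, ?_⟩
    have e2 : 6 * ((q + 1) / 6) - 1 = q := by omega
    rw [e2]
    exact hq.2.1
  have h3 : (X : ℝ) / (4 * (6 : ℕ) * Real.log X) ≤ ((Base n).card : ℝ) := h1.trans (by exact_mod_cast h2)
  have hl0 : 0 < Real.log X := by linarith
  rw [div_le_iff₀ (by positivity)] at h3
  have h4 : Real.log X ≤ Real.log (6 * n) := by
    apply Real.log_le_log (by linarith)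
    exact_mod_cast hX1
  calc (n : ℝ) ≤ X := by exact_mod_cast hXn
    _ ≤ (Base n).card * (4 * (6 : ℕ) * Real.log X) := h3
    _ ≤ _ := by
        apply mul_le_mul_of_nonneg_left _ (Nat.cast_nonneg _)
        push_cast
        linarith

open Classical in
/-- the law for classes of distributions -/
theorem main (b q₀ : ℕ) (hb : 2 ≤ b) (Cl : Fin 2 → ℕ → (ℕ → ℝ) → Prop) (hC : ∀ j, Pool.Agent.U847.XP.SCls b q₀ (Cl j))
    (κ : Fin 2 → ℤ) (hκ : ∀ j, κ j ≠ 0) (B J C K₁ : ℕ) (θ : ℝ) (hθ : 0 < θ) (ε : ℝ) (hε : 0 < ε) (hε1 : ε ≤ 1) :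
    ∃ d₀ : ℕ, ∀ d : ℕ, d₀ ≤ d → ∀ μ : Fin 2 → ℕ → ℝ, (∀ j, Cl j d (μ j)) →
    ∀ y : ℕ, θ * Real.log d ≤ y → y ≤ K₁ * Real.log d → ∀ c : Fin 2 → ℤ, (∀ j, |c j| ≤ B * (b : ℤ) ^ d) →
    ∀ h : Fin 2 → ℕ, (∀ j, 1 ≤ h j ∧ h j ≤ d ^ J) → ∀ n : ℕ, b ^ d ≤ n * d ^ C → n ≤ b ^ d * d ^ C →
    (n : ℝ) ≤ ((Base n).card : ℝ) * (d : ℝ) ^ 3 ∧
    ∑ v ∈ Fintype.piFinset (fun _ : Fin 2 => range (b ^ d)),
      (if (∀ j, 0 < Nv y (h j) (c j) (κ j) (v j)) →
        |((Good n (Nv y (h 0) (c 0) (κ 0) (v 0)) (Nv y (h 1) (c 1) (κ 1) (v 1))).card : ℝ) -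
          (Base n).card / (V y * (d * Real.log b)) ^ 2| ≤ ε * ((Base n).card / (V y * (d * Real.log b)) ^ 2)
        then 0 else ∏ j, μ j (v j)) ≤ ε := by
  obtain ⟨k₀, h0⟩ := Pool.Agent.U847.XP.pair_f b q₀ hb Cl hC κ hκ B J 7 (C + 4) K₁ θ hθ ε hε hε1
  obtain ⟨k₁, h1⟩ := Pool.Agent.N625.PT.X_large b C hb
  obtain ⟨k₂, h2⟩ := Pool.Agent.N625.PT.log_X b C hb
  obtain ⟨n4, hn4⟩ := Pool.Agent.Y877.SX.nth_le_log
  obtain ⟨n5, hn5⟩ := base_low
  refine ⟨max (max k₀ k₁) (max k₂ (max n4 (max n5 30))), fun d hd μ hμ y hy1 hy2 c hc h hh n hn1 hn2 => ?_⟩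
  have b0 : 30 ≤ d := by omega
  have hdr : (30 : ℝ) ≤ d := by exact_mod_cast b0
  have hdn := h1 d (by omega) n hn1
  have hlog := h2 d (by omega) n hn2
  have hl0 : 0 ≤ Real.log n := Real.log_natCast_nonneg n
  have hn0 : (0 : ℝ) ≤ n := Nat.cast_nonneg n
  have hnp : (0 : ℝ) < n := by exact_mod_cast (by omega : 0 < n)
  have hlow : (n : ℝ) ≤ ((Base n).card : ℝ) * (d : ℝ) ^ 3 := by
    refine (hn5 n (by omega)).trans ?_
    apply mul_le_mul_of_nonneg_left _ (Nat.cast_nonneg _)
    have e1 : Real.log (6 * n) ≤ 5 + (d : ℝ) ^ 2 := by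
      rw [Real.log_mul (by norm_num) hnp.ne']
      have := Real.log_le_sub_one_of_pos (by norm_num : (0 : ℝ) < 6)
      linarith
    nlinarith
  refine ⟨hlow, ?_⟩
  have hX1 : b ^ d ≤ (n * d ^ 4) * d ^ (C + 4) := by
    refine hn1.trans ?_
    rw [mul_assoc, ← pow_add]
    exact Nat.mul_le_mul_left _ (Nat.pow_le_pow_right (by omega) (by omega))
  have hX2 : n * d ^ 4 ≤ b ^ d * d ^ (C + 4) := by
    calc n * d ^ 4 ≤ (b ^ d * d ^ C) * d ^ 4 := Nat.mul_le_mul_right _ hn2
      _ = _ := by rw [mul_assoc, ← pow_add]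
  have hsub : Base n ⊆ Ioo 0 n := by unfold Base; exact filter_subset _ _
  have hf : ∀ k ∈ Base n, 1 ≤ 6 * k - 1 ∧ 6 * k - 1 ≤ n * d ^ 4 ∧ ((6 * k - 1).Coprime (primorial y * h 0) ∨ (6 * k - 1).Prime) := by
    intro k hk
    have hk' := mem_Ioo.1 (hsub hk)
    have hp : (6 * k - 1).Prime := by
      unfold Base at hk
      exact (mem_filter.1 hk).2
    refine ⟨by omega, ?_, Or.inr hp⟩
    have g1 : 6 * k - 1 ≤ n * 6 := by omega
    refine g1.trans (Nat.mul_le_mul_left _ ?_)
    calc 6 ≤ d ^ 1 := by rw [pow_one]; omega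
      _ ≤ d ^ 4 := Nat.pow_le_pow_right (by omega) (by norm_num)
  have hg : ∀ k ∈ Base n, 1 ≤ p (n - k) ∧ p (n - k) ≤ n * d ^ 4 ∧
      ((p (n - k)).Coprime (primorial y * h 1) ∨ (p (n - k)).Prime) := by
    intro k hk
    have hk' := mem_Ioo.1 (hsub hk)
    have hp : (p (n - k)).Prime := Nat.prime_nth_prime _
    refine ⟨hp.pos, ?_, Or.inr hp⟩
    have g1 : ((p (n - k) : ℕ) : ℝ) ≤ n * (d : ℝ) ^ 4 := by
      refine (hn4 n (by omega) (n - k - 1) (by omega)).trans ?_
      apply mul_le_mul_of_nonneg_left _ hn0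
      calc Real.log n ^ 2 ≤ ((d : ℝ) ^ 2) ^ 2 := pow_le_pow_left₀ hl0 hlog _
        _ = (d : ℝ) ^ 4 := by rw [← pow_mul]
    exact_mod_cast g1
  have hKA' : ((n * d ^ 4 : ℕ) : ℝ) ≤ (Base n).card * (d : ℝ) ^ 7 := by
    push_cast
    calc (n : ℝ) * (d : ℝ) ^ 4 ≤ ((Base n).card * (d : ℝ) ^ 3) * (d : ℝ) ^ 4 := mul_le_mul_of_nonneg_right hlow (by positivity)
      _ = _ := by rw [mul_assoc, ← pow_add]
  refine le_trans (le_of_eq ?_) (h0 d (by omega) μ hμ y hy1 hy2 c hc h hh (n * d ^ 4) hX1 hX2 (Base n) (fun k => 6 * k - 1)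
    (fun k => p (n - k)) ((six_inj n).mono (by exact_mod_cast hsub)) ((p_inj n).mono (by exact_mod_cast hsub)) hf hg hKA')
  apply sum_congr rfl
  intro v _
  congr!

open Classical in
/-- Let `b ≥ 2`, `Δ j`, `η j > 0`, `κ j ≠ 0` for `j < 2`, `B`, `J`, `C`, `K₁`, `θ > 0` and `0 < ε ≤ 1` be fixed and let `d` be
large. Let `v j < b ^ d` be independent random integers whose digits form Markov random fields with flexible digits on
arbitrary graphs `G j` of positions with degrees at most `Δ j`, let `y` be between `θ log d` and `K₁ log d` (`θ > 0` is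
arbitrary), `M` the product of the primes `≤ y`, `|c j| ≤ B b ^ d`, `1 ≤ h j ≤ d ^ J`, `N_j = M h_j (c_j + κ_j v_j)`, and let
`n` be ANY integer with `b ^ d ≤ n d ^ C`, `n ≤ b ^ d d ^ C`. The set `K` of the `0 < k < n` such that `6 k - 1` is prime has
at least `n / d ^ 3` elements, and with a probability of at least `1 - ε`: if `N_0, N_1 > 0`, then the number of the
`0 < k < n` such that `6 k - 1`, `6 k - 1 + N_0` and `p_{n - k} + N_1` are all prime differs from
`E = #K / (V y log b ^ d) ^ 2` by at most `ε E`. -/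
theorem result (b : ℕ) (hb : 2 ≤ b) (Δ : Fin 2 → ℕ) (η : Fin 2 → ℝ) (hη : ∀ j, 0 < η j) (κ : Fin 2 → ℤ)
    (hκ : ∀ j, κ j ≠ 0) (B J C K₁ : ℕ) (θ : ℝ) (hθ : 0 < θ) (ε : ℝ) (hε : 0 < ε) (hε1 : ε ≤ 1) :
    ∃ d₀ : ℕ, ∀ d : ℕ, d₀ ≤ d → ∀ (G : Fin 2 → ℕ → ℕ → Prop) (μ : Fin 2 → ℕ → ℝ),
      (∀ j, Field b d (Δ j) (η j) (G j) (μ j)) →
      ∀ y : ℕ, θ * Real.log d ≤ y → y ≤ K₁ * Real.log d →
      ∀ c : Fin 2 → ℤ, (∀ j, |c j| ≤ B * (b : ℤ) ^ d) → ∀ h : Fin 2 → ℕ, (∀ j, 1 ≤ h j ∧ h j ≤ d ^ J) →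
      ∀ n : ℕ, b ^ d ≤ n * d ^ C → n ≤ b ^ d * d ^ C →
        (n : ℝ) ≤ ((Base n).card : ℝ) * (d : ℝ) ^ 3 ∧
        ∑ v ∈ Fintype.piFinset (fun _ : Fin 2 => range (b ^ d)),
          (if (∀ j, 0 < Nv y (h j) (c j) (κ j) (v j)) →
            |((Good n (Nv y (h 0) (c 0) (κ 0) (v 0)) (Nv y (h 1) (c 1) (κ 1) (v 1))).card : ℝ) -
              (Base n).card / (V y * (d * Real.log b)) ^ 2| ≤ ε * ((Base n).card / (V y * (d * Real.log b)) ^ 2)
            then 0 else ∏ j, μ j (v j)) ≤ ε := by
  obtain ⟨d₀, h0⟩ := main b _ hb (fun j => Pool.Agent.N213.GF.GC b (Δ j) (η j))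
    (fun j => Pool.Agent.U847.XP.gf_scls b (Δ j) (η j) hb (hη j)) κ hκ B J C K₁ θ hθ ε hε hε1
  exact ⟨d₀, fun d hd G μ hμ => h0 d hd μ (fun j => ⟨G j, field_conv (hμ j)⟩)⟩

end Pool.Agent.Results.MP_ea8352_nt.RandomFieldPairs
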