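import Pool.Agent.U331.MW.Exp
import Pool.Agent.Results.MP_ea8352_nt.RandomFieldPairs

/-!
# EVERY large `n`: the number of the `k < n` with `6 k - 1`, `6 k - 1 + N` and `p_{n - k} + N'` prime, for multiples `N`, `N'`
of random integers with exchangeable pairs of opposite digits (palindromes, for example)

The even numbers are `N_j = h_j M (c_j + κ_j v_j)`, where `M` is the product of the primes `≤ y` and the `v_j` are random
integers with exchangeable pairs of opposite digits (`Mirror`): the digit number `i` from the left may determine the digit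
number `i` from the right, and conversely.
The sum in the theorem is the probability that `(v_0, v_1)` does not have the property.

From Mathlib: `Nat.nth Nat.Prime`: the sequence of the primes; `primorial y`: the product of the primes `≤ y`;
`Finset.Ioo 0 n`: the integers `0 < k < n`; `Fintype.piFinset S`: the vectors `v` with `v j ∈ S j`.

Method. New here: the exponential sums over such random integers. An exchange of a pair of opposite digits changes `v` by
`P b ^ (k - 1 - i) + Q b ^ i` with `P, Q ≠ 0`; if the products of a frequency with these numbers are close to integers for two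
neighbouring pairs, then they determine the products with `(b ^ 4)! b ^ i` and `(b ^ 4)! b ^ (k - 2 - i)` modulo `1`. So the
exponential sum decays exponentially in the number of the positions at which the frequency, multiplied with `(b ^ 4)!`, is
far from the integers (`Pool.Agent.U331.MW`). The passage from such a decay to the sieve, to the second moment and to the
number of the primes in random translates is helper847's (`Pool.Agent.U847.XP.SCls`, generic in the class of distributions,
after the starting files `Pool.Agent.N625.PT.X2` - `X12`),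
and the law for the pairs is his `Pool.Agent.Results.MP_ea8352_nt.RandomFieldPairs.main`.
-/

set_option autoImplicit false

namespace Pool.Agent.Results.MP_ea8352_nt.MirrorPairs

open Finset

/-- The integer whose digits in base `b` are the `i` digits of `u < b ^ i`, the `m` digits of `w < b ^ m` and the `i` digits of
`u' < b ^ i`, one after the other, from the most significant to the least significant one. -/
def frame (b m i u u' w : ℕ) : ℕ := u * b ^ (m + i) + (w * b ^ i + u')

/-- The probability, for the distribution `μ`, that the word of `m + 2 i` digits begins with the `i` digits of `u` and ends with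
the `i` digits of `u'`. -/
noncomputable def outer (b : ℕ) (μ : ℕ → ℝ) (m i u u' : ℕ) : ℝ := ∑ w ∈ range (b ^ m), μ (frame b m i u u' w)

/-- `p` is a probability on the words of `k` digits in base `b`, read as integers `v < b ^ k`. There is another probability
`μ` with `p ≤ k ^ T μ` such that, whatever the first `i` digits `u` and the last `i` digits `u'` are (`m + 2 (i + 1) = k`), two
different pairs `(a, a')` and `(c, c')`, `a ≠ c`, `a' ≠ c'`, of the next digit from the left and the next digit from the right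
can be exchanged: `p (u a w a' u') = r p (u c w c' u')` for all the words `w` of `m` digits, with a factor `r` between `η` and
`1 / η` which does not depend on `w`; and given `u` and `u'`, each of the two pairs comes next with a probability of at least
`η` in the distribution `μ`. (No digit alone needs to be exchangeable. Example: the uniform distribution on the palindromic
words, `T = 0`, `μ = p`, `η = 1 / b`, `r = 1`.) -/
structure Mirror (b : ℕ) (η : ℝ) (T k : ℕ) (p : ℕ → ℝ) : Prop where
  nonneg : ∀ v, 0 ≤ p v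
  sum : ∑ v ∈ range (b ^ k), p v = 1
  dominated : ∃ μ : ℕ → ℝ, (∀ v, 0 ≤ μ v) ∧ ∑ v ∈ range (b ^ k), μ v = 1 ∧ (∀ v < b ^ k, p v ≤ (k : ℝ) ^ T * μ v) ∧
    ∀ i m u u' : ℕ, m + 2 * (i + 1) = k → u < b ^ i → u' < b ^ i → ∃ (a a' c c' : ℕ) (r : ℝ),
      (a < b ∧ a' < b ∧ c < b ∧ c' < b) ∧ a ≠ c ∧ a' ≠ c' ∧ η ≤ r ∧ η * r ≤ 1 ∧
      (∀ w < b ^ m, p (frame b m (i + 1) (b * u + a) (a' * b ^ i + u') w) =
        r * p (frame b m (i + 1) (b * u + c) (c' * b ^ i + u') w)) ∧
      η * outer b μ (m + 2) i u u' ≤ outer b μ m (i + 1) (b * u + a) (a' * b ^ i + u') ∧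
      η * outer b μ (m + 2) i u u' ≤ outer b μ m (i + 1) (b * u + c) (c' * b ^ i + u')

lemma conv {b : ℕ} {η : ℝ} {T k : ℕ} {p : ℕ → ℝ} (h : Mirror b η T k p) : Pool.Agent.U331.MW.Mirror b η T k p :=
  ⟨h.nonneg, h.sum, h.dominated⟩

/-- the `n`-th prime, `n ≥ 1` -/
noncomputable def p (n : ℕ) : ℕ := Nat.nth Nat.Prime (n - 1)

/-- the product of `1 - 1/q` over the primes `q ≤ y` -/
noncomputable def V (y : ℕ) : ℝ := ∏ q ∈ (Icc 1 y).filter Nat.Prime, (1 - 1 / (q : ℝ))

/-- the multiple of the product of the primes `≤ y` given by the integers `h` and `c + κ v` -/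
def Nv (y h : ℕ) (c κ : ℤ) (v : ℕ) : ℤ := ((primorial y * h : ℕ) : ℤ) * (c + κ * v)

/-- the `0 < k < n` such that `6 k - 1` is prime -/
def Base (n : ℕ) : Finset ℕ := (Ioo 0 n).filter (fun k : ℕ => (6 * k - 1).Prime)

/-- the `0 < k < n` such that `6 k - 1`, `6 k - 1 + N` and `p_{n - k} + N'` are prime -/
noncomputable def Good (n : ℕ) (N N' : ℤ) : Finset ℕ :=
  (Base n).filter (fun k : ℕ => (N + (6 * k - 1 : ℕ)).toNat.Prime ∧ (N' + (p (n - k) : ℕ)).toNat.Prime)

open Classical in
/-- Let `b ≥ 2`, `0 < η ≤ 1`, `T`, `κ j ≠ 0` for `j < 2`, `B`, `J`, `C`, `K₁`, `θ > 0` and `0 < ε ≤ 1` be fixed and let `d` be large. Let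
`μ 0`, `μ 1` be distributions on the words of `d` digits in base `b` with `Mirror b η T d (μ j)`, and let `v_0`, `v_1` be
independent random integers with these distributions. Let `y` be between `θ log d` and `K₁ log d` (`θ > 0` is arbitrary), `M`
the product of the primes `≤ y`, `|c j| ≤ B b ^ d`, `1 ≤ h j ≤ d ^ J`, `N_j = M h_j (c_j + κ_j v_j)`, and let `n` be ANY
integer with `b ^ d ≤ n d ^ C`, `n ≤ b ^ d d ^ C`. The set `K` of the `0 < k < n` such that `6 k - 1` is prime has at least
`n / d ^ 3` elements, and with a probability of at least `1 - ε`: if `N_0, N_1 > 0`, then the number of the `0 < k < n` such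
that `6 k - 1`, `6 k - 1 + N_0` and `p_{n - k} + N_1` are all prime differs from `E = #K / (V y log b ^ d) ^ 2` by at most
`ε E`. -/
theorem result (b : ℕ) (hb : 2 ≤ b) (η : ℝ) (hη0 : 0 < η) (hη1 : η ≤ 1) (T : ℕ) (κ : Fin 2 → ℤ) (hκ : ∀ j, κ j ≠ 0)
    (B J C K₁ : ℕ) (θ : ℝ) (hθ : 0 < θ) (ε : ℝ) (hε : 0 < ε) (hε1 : ε ≤ 1) :
    ∃ d₀ : ℕ, ∀ d : ℕ, d₀ ≤ d → ∀ μ : Fin 2 → ℕ → ℝ, (∀ j, Mirror b η T d (μ j)) →
      ∀ y : ℕ, θ * Real.log d ≤ y → y ≤ K₁ * Real.log d →
      ∀ c : Fin 2 → ℤ, (∀ j, |c j| ≤ B * (b : ℤ) ^ d) → ∀ h : Fin 2 → ℕ, (∀ j, 1 ≤ h j ∧ h j ≤ d ^ J) →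
      ∀ n : ℕ, b ^ d ≤ n * d ^ C → n ≤ b ^ d * d ^ C →
        (n : ℝ) ≤ ((Base n).card : ℝ) * (d : ℝ) ^ 3 ∧
        ∑ v ∈ Fintype.piFinset (fun _ : Fin 2 => range (b ^ d)),
          (if (∀ j, 0 < Nv y (h j) (c j) (κ j) (v j)) →
            |((Good n (Nv y (h 0) (c 0) (κ 0) (v 0)) (Nv y (h 1) (c 1) (κ 1) (v 1))).card : ℝ) -
              (Base n).card / (V y * (d * Real.log b)) ^ 2| ≤ ε * ((Base n).card / (V y * (d * Real.log b)) ^ 2)
            then 0 else ∏ j, μ j (v j)) ≤ ε := by
  obtain ⟨d₀, h0⟩ := Pool.Agent.Results.MP_ea8352_nt.RandomFieldPairs.main b _ hb (fun _ : Fin 2 => (Pool.Agent.U331.MW.Mirror b η T))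
    (fun _ => (Pool.Agent.U331.MW.mir_scls b hb η hη0 hη1 T)) κ hκ B J C K₁ θ hθ ε hε hε1
  exact ⟨d₀, fun d hd μ hμ => h0 d hd μ (fun j => conv (hμ j))⟩

end Pool.Agent.Results.MP_ea8352_nt.MirrorPairs
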