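import Pool.Agent.U918.SM.Bd

/-!
# `n = k + m`: the numbers `6 k - 1`, `6 k + 1`, `p_m` plus independent shifts in arbitrary residue classes

The question asks, for every `n > 2`, for `n = k + m` with `6 k - 1`, `6 k + 1` and `p_m + 2` prime
(`p_m` is the `m`-th prime). Let `n` be large, `M` the product of the primes `≤ y`, where `y` is comparable to
`log log n` (so `M` is a power of `log n`). Let `K` be an ARBITRARY set of integers `0 < k < n` and let `a, b, c`
be arbitrary residues modulo `M`, for instance the residues `0, 0, 2` of the question. Then for almost all triples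
of shifts `h₁ ≡ a`, `h₂ ≡ b`, `h₃ ≡ c` modulo `M` the number of `k ∈ K` for which `6 k - 1 + h₁`, `6 k + 1 + h₂`
and `p_m + h₃`, `m = n - k`, are prime is asymptotically the number of `k ∈ K` for which `6 k - 1 + a`,
`6 k + 1 + b` and `p_m + c` are prime to `M`, divided by `(V log n)³`, `V = ∏_{q ≤ y} (1 - 1/q)`, up to an error
`ε` times this number plus `n / log ^ D n`.

The same holds for any finite number of conditions of the three kinds with independent shifts, in particular for
the third kind alone; then `K` can be any set of `k` for which `6 k - 1` and `6 k + 1` are prime.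
-/

set_option autoImplicit false

open Finset

namespace Pool.Agent.Results.MP_ea8352_nt.SmallModuli

/-- the `m`-th prime, `p 1 = 2` -/
noncomputable def p (m : ℕ) : ℕ := Nat.nth Nat.Prime (m - 1)

/-- the product of `1 - 1/q` over the primes `q ≤ y` -/
noncomputable def V (y : ℕ) : ℝ := ∏ q ∈ (Icc 1 y).filter Nat.Prime, (1 - 1 / (q : ℝ))

/-- the three numbers of a decomposition `n = k + m`: `6 k - 1`, `6 k + 1` and `p_m` -/
noncomputable def num (n k : ℕ) : Fin 3 → ℕ := ![6 * k - 1, 6 * k + 1, p (n - k)]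

/-- the `k ∈ K` for which all the numbers `num n k (t s) + h s` are prime -/
noncomputable def Primes {r : ℕ} (t : Fin r → Fin 3) (n : ℕ) (K : Finset ℕ) (h : Fin r → ℕ) : Finset ℕ :=
  open Classical in K.filter (fun k => ∀ s, (num n k (t s) + h s).Prime)

/-- the `k ∈ K` for which all the numbers `num n k (t s) + a s` are prime to `M` -/
noncomputable def Sifted {r : ℕ} (t : Fin r → Fin 3) (n M : ℕ) (K : Finset ℕ) (a : Fin r → ℕ) : Finset ℕ :=
  open Classical in K.filter (fun k => ∀ s, (num n k (t s) + a s).Coprime M)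

theorem num_inj (n : ℕ) (i : Fin 3) (K : Finset ℕ) (hK : K ⊆ Ioo 0 n) :
    Set.InjOn (fun k => num n k i) K := by
  intro k hk l hl h
  have h1 := mem_Ioo.1 (hK (mem_coe.1 hk))
  have h2 := mem_Ioo.1 (hK (mem_coe.1 hl))
  fin_cases i
  · simp only [num, Fin.zero_eta, Matrix.cons_val_zero] at h
    omega
  · simp only [num, Fin.mk_one, Matrix.cons_val_one, Matrix.cons_val_zero] at h
    omega
  · simp only [num, Fin.reduceFinMk, Matrix.cons_val] at h
    have h3 : n - k = n - l := Pool.Agent.U918.IS.pr_inj (a := n - k) (b := n - l) (by omega) (by omega) h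
    omega

theorem num_pos (n k : ℕ) (i : Fin 3) (hk : 0 < k) : 1 ≤ num n k i := by
  fin_cases i
  · simp only [num, Fin.zero_eta, Matrix.cons_val_zero]
    omega
  · simp only [num, Fin.mk_one, Matrix.cons_val_one, Matrix.cons_val_zero]
    omega
  · simp only [num, Fin.reduceFinMk, Matrix.cons_val]
    exact (Pool.Agent.U918.IS.pr_prime (n - k)).one_lt.le

theorem num_bound : ∃ B n0 : ℕ, ∀ n : ℕ, n0 ≤ n → ∀ k : ℕ, k < n → ∀ i : Fin 3,
    (num n k i : ℝ) ≤ n * Real.log n ^ B := by
  obtain ⟨B, n1, h1⟩ := Pool.Agent.U918.SM.pr_le 0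
  obtain ⟨n2, h2⟩ := Pool.Agent.H373R2.T7.ev_L' 7
  refine ⟨B + 1, max n1 (max n2 1), fun n hn k hk i => ?_⟩
  have b1 : n1 ≤ n := le_trans (le_max_left _ _) hn
  have b2 : n2 ≤ n := le_trans (le_trans (le_max_left _ _) (le_max_right _ _)) hn
  have b3 : 1 ≤ n := le_trans (le_trans (le_max_right _ _) (le_max_right _ _)) hn
  have hL := h2 n b2
  obtain ⟨L, hLd⟩ : ∃ L, L = Real.log n := ⟨_, rfl⟩
  have k1 := h1 n b1 (n - k)
  rw [← hLd] at hL k1 ⊢
  rw [pow_zero, mul_one] at k1
  have hnr : (1 : ℝ) ≤ n := by exact_mod_cast b3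
  have hLB : 1 ≤ L ^ B := one_le_pow₀ (by linarith)
  have h7 : 7 ≤ L ^ (B + 1) := by
    rw [pow_succ]
    nlinarith
  have hkr : (k : ℝ) ≤ n := by exact_mod_cast hk.le
  fin_cases i
  · simp only [num, Fin.zero_eta, Matrix.cons_val_zero]
    have h3 : ((6 * k - 1 : ℕ) : ℝ) ≤ 6 * k := by exact_mod_cast Nat.sub_le _ _
    nlinarith
  · simp only [num, Fin.mk_one, Matrix.cons_val_one, Matrix.cons_val_zero]
    push_cast
    nlinarith
  · simp only [num, Fin.reduceFinMk, Matrix.cons_val]
    have h3 : (p (n - k) : ℝ) ≤ n * L ^ B := k1 (by exact_mod_cast Nat.sub_le _ _)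
    refine h3.trans (mul_le_mul_of_nonneg_left ?_ (by linarith))
    exact pow_le_pow_right₀ (by linarith) (by omega)

/-- **The theorem.** For finitely many conditions, the kinds of which are given by `t : Fin r → Fin 3`, and all
`C`, `D`, `0 < ε ≤ 1` there is `K₀` such that for every `K₁`, every large `n` and every `y` between
`K₀ log log n` and `K₁ log log n`, with `M` the product of the primes `≤ y`, the following holds. Let `K` be any
set of integers `0 < k < n`, `a s` any integers `≥ 0`, and let `(g₀ s, g₀ s + G s]` be windows with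
`a s + M (g₀ s + G s) ≤ n` and `n ≤ M (G s) log ^ C n`. For all but at most `ε ∏ G s` of the vectors `g`,
`1 ≤ g s ≤ G s`, the number of the `k ∈ K` for which the numbers of all conditions, shifted by
`a s + M (g₀ s + g s)`, are prime differs from `S / (V y log n) ^ r`, where `S` is the number of the `k ∈ K` for
which the numbers of all conditions, shifted by `a s`, are prime to `M`, by at most
`ε S / (V y log n) ^ r + n / log ^ D n`. -/
theorem result (r : ℕ) (t : Fin r → Fin 3) (C D : ℕ) (ε : ℝ) (hε : 0 < ε) (hε1 : ε ≤ 1) :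
    ∃ K₀ : ℕ, ∀ K₁ : ℕ, ∃ n₀ : ℕ, ∀ n : ℕ, n₀ ≤ n →
    ∀ y : ℕ, K₀ * Real.log (Real.log n) ≤ y → y ≤ K₁ * Real.log (Real.log n) →
    ∀ K : Finset ℕ, K ⊆ Ioo 0 n →
    ∀ a g₀ G : Fin r → ℕ, (∀ s, a s + primorial y * (g₀ s + G s) ≤ n) →
    (∀ s, (n : ℝ) ≤ primorial y * G s * Real.log n ^ C) →
      (((Fintype.piFinset (fun s => Icc 1 (G s))).filter (fun g =>
        ε * ((Sifted t n (primorial y) K a).card / (V y * Real.log n) ^ r) + n / Real.log n ^ D <
        |((Primes t n K (fun s => a s + primorial y * (g₀ s + g s))).card : ℝ) -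
          (Sifted t n (primorial y) K a).card / (V y * Real.log n) ^ r|)).card : ℝ) ≤
      ε * ∏ s, (G s : ℝ) := by
  obtain ⟨B, n1, hB⟩ := num_bound
  obtain ⟨K₀, hK₀⟩ := Pool.Agent.U918.SM.main r B C D ε hε hε1
  refine ⟨K₀, fun K₁ => ?_⟩
  obtain ⟨n₀, hn₀⟩ := hK₀ K₁
  refine ⟨max n₀ n1, fun n hn y hy1 hy2 K hK a g₀ G a1 a2 => ?_⟩
  have key := hn₀ n (le_trans (le_max_left _ _) hn) y hy1 hy2 (fun _ => 1) (fun _ => Or.inl rfl) K
    (fun s k => num n k (t s)) (fun s => num_inj n (t s) K hK)
    (fun s k hk => ⟨num_pos n k (t s) (mem_Ioo.1 (hK hk)).1,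
      hB n (le_trans (le_max_right _ _) hn) k (mem_Ioo.1 (hK hk)).2 (t s)⟩)
    a g₀ G (fun s => by rw [pow_one]; exact a1 s) (fun s => by rw [pow_one]; exact a2 s)
    (fun g => Primes t n K (fun s => a s + primorial y * (g₀ s + g s)))
    (fun _ => Sifted t n (primorial y) K a)
    (fun g => by unfold Primes; exact filter_subset _ _)
    (fun g => by unfold Sifted; exact filter_subset _ _)
    (fun g j hj => by
      simp only [Primes, mem_filter, pow_one]
      exact ⟨fun h => h.2, fun h => ⟨hj, h⟩⟩)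
    (fun g j hj => by
      simp only [Sifted, mem_filter, pow_one]
      exact ⟨fun h => h.2, fun h => ⟨hj, h⟩⟩)
  refine le_trans (le_of_eq ?_) key
  have h1 : ∏ _s : Fin r, (((1 : ℕ) : ℝ) * (Pool.Agent.H373R2.T7.Vz y * Real.log n)) = (V y * Real.log n) ^ r := by
    rw [prod_const, card_univ, Fintype.card_fin, Nat.cast_one, one_mul]
    rfl
  rw [h1]

end Pool.Agent.Results.MP_ea8352_nt.SmallModuli
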